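import Mathlib

/-!
# Coinduced modules `Hom_B(R, W)`

For a `B`-algebra `R` and a `B`-module `W`, `Coind B R W` is `Hom_B(R, W)` with the
`R`-module structure `(r • g)(s) = g (r * s)`.

* `Coind.injective`: if `W` is an injective `B`-module, `Coind B R W` is an injective `R`-module.
* `Coind.evEquiv`: if `R` is a finite free `B`-module, `M = Coind B R B` and `Ω = Coind B R W`,
  then `M ⊗_R Hom_R(M, Ω) ≃ Ω`.
-/

namespace Pool.Agent.Q41.CT

open TensorProduct

/-- `Hom_B(R, W)` as an `R`-module. -/
def Coind (B R W : Type) [CommRing B] [CommRing R] [Algebra B R] [AddCommGroup W]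
    [Module B W] : Type := R →ₗ[B] W

namespace Coind

variable {B R W : Type} [CommRing B] [CommRing R] [Algebra B R] [AddCommGroup W] [Module B W]

instance : AddCommGroup (Coind B R W) := inferInstanceAs (AddCommGroup (R →ₗ[B] W))

instance : FunLike (Coind B R W) R W := inferInstanceAs (FunLike (R →ₗ[B] W) R W)

theorem ext {g h : Coind B R W} (H : ∀ s, g s = h s) : g = h := DFunLike.ext _ _ H

theorem add_apply (g h : Coind B R W) (s : R) : (g + h) s = g s + h s := rfl

theorem zero_apply (s : R) : (0 : Coind B R W) s = 0 := rfl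

theorem map_add' (g : Coind B R W) (s t : R) : g (s + t) = g s + g t :=
  LinearMap.map_add (show R →ₗ[B] W from g) s t

theorem map_smul' (g : Coind B R W) (c : B) (s : R) : g (c • s) = c • g s :=
  LinearMap.map_smul (show R →ₗ[B] W from g) c s

theorem map_zero' (g : Coind B R W) : g 0 = 0 :=
  LinearMap.map_zero (show R →ₗ[B] W from g)

instance : SMul R (Coind B R W) where
  smul r g := (show R →ₗ[B] W from g).comp (LinearMap.mulLeft B r)

theorem smul_apply (r : R) (g : Coind B R W) (s : R) : (r • g) s = g (r * s) := rfl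

instance : Module R (Coind B R W) where
  one_smul g := ext fun s => by rw [smul_apply, one_mul]
  mul_smul r r' g := ext fun s => by
    rw [smul_apply, smul_apply, smul_apply]; congr 1; ring
  smul_zero r := ext fun s => by rw [smul_apply, zero_apply, zero_apply]
  smul_add r g h := ext fun s => by rw [smul_apply, add_apply, add_apply, smul_apply, smul_apply]
  add_smul r r' g := ext fun s => by
    rw [smul_apply, add_apply, smul_apply, smul_apply, add_mul, map_add']
  zero_smul g := ext fun s => by rw [smul_apply, zero_mul, map_zero', zero_apply]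

/-- coinduction preserves injectivity -/
theorem injective (hW : Module.Injective B W) : Module.Injective R (Coind B R W) := by
  apply Module.Baer.injective
  intro I g
  let g1 : I →ₗ[B] W :=
    { toFun := fun x => (g x) 1
      map_add' := fun x y => by rw [map_add, add_apply]
      map_smul' := fun c x => by
        have h1 : (c • x : I) = (algebraMap B R c) • x := by
          rw [algebraMap_smul]
        rw [h1, map_smul, smul_apply, mul_one, RingHom.id_apply, Algebra.algebraMap_eq_smul_one,
          map_smul'] }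
  obtain ⟨h, hh⟩ := hW.out (I.subtype.restrictScalars B) (by
    intro a b hab; exact Subtype.ext hab) g1
  let h' : Coind B R W := h
  refine ⟨LinearMap.toSpanSingleton R _ h', ?_⟩
  intro x hx
  apply ext
  intro s
  rw [LinearMap.toSpanSingleton_apply, smul_apply]
  have h2 := hh (s • ⟨x, hx⟩)
  have h3 : (I.subtype.restrictScalars B) (s • ⟨x, hx⟩ : I) = x * s := by
    change (s • x) = x * s
    rw [smul_eq_mul, mul_comm]
  rw [h3] at h2
  change h (x * s) = _
  rw [h2]
  change (g (s • ⟨x, hx⟩)) 1 = _
  rw [map_smul, smul_apply, mul_one]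

/-- `f ↦ (s ↦ f s • w)` -/
def Phi (w : W) : Coind B R B →ₗ[R] Coind B R W where
  toFun f := (LinearMap.toSpanSingleton B W w).comp (show R →ₗ[B] B from f)
  map_add' f g := ext fun s => by
    change (f + g) s • w = f s • w + g s • w
    rw [add_apply, add_smul]
  map_smul' r f := rfl

theorem Phi_apply (w : W) (f : Coind B R B) (s : R) : (Phi w f : Coind B R W) s = f s • w := rfl

theorem Phi_add (w w' : W) : (Phi (w + w') : Coind B R B →ₗ[R] Coind B R W) = Phi w + Phi w' := by
  ext f
  apply ext
  intro s
  rw [LinearMap.add_apply, add_apply, Phi_apply, Phi_apply, Phi_apply, smul_add]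

theorem Phi_zero : (Phi (0 : W) : Coind B R B →ₗ[R] Coind B R W) = 0 := by
  ext f
  apply ext
  intro s
  rw [LinearMap.zero_apply, zero_apply, Phi_apply, smul_zero]

theorem Phi_smul (c : B) (w : W) :
    (Phi (c • w) : Coind B R B →ₗ[R] Coind B R W) = algebraMap B R c • Phi w := by
  ext f
  apply ext
  intro s
  rw [LinearMap.smul_apply, smul_apply, Phi_apply, Phi_apply, ← Algebra.smul_def, map_smul',
    smul_smul, smul_eq_mul, mul_comm]

section Basis

variable {ι : Type} [Fintype ι] (b : Module.Basis ι B R)

/-- dual basis vector -/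
noncomputable def dual (i : ι) : Coind B R B := b.coord i

omit [Fintype ι] in
theorem dual_apply (i : ι) (s : R) : dual b i s = b.repr s i := rfl

theorem sum_apply {κ : Type} (t : Finset κ) (g : κ → Coind B R W) (s : R) :
    (∑ i ∈ t, g i) s = ∑ i ∈ t, g i s := by
  classical
  induction t using Finset.induction_on with
  | empty => simp [zero_apply]
  | insert a t ha ih => rw [Finset.sum_insert ha, Finset.sum_insert ha, add_apply, ih]

theorem map_sum' {κ : Type} (t : Finset κ) (g : Coind B R W) (x : κ → R) :
    g (∑ i ∈ t, x i) = ∑ i ∈ t, g (x i) :=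
  _root_.map_sum (show R →ₗ[B] W from g) x t

theorem expand (g : Coind B R W) (s : R) : g s = ∑ i, dual b i s • g (b i) := by
  conv_lhs => rw [← b.sum_repr s]
  rw [map_sum']
  refine Finset.sum_congr rfl fun i _ => ?_
  rw [map_smul']; rfl

theorem expand' (f : Coind B R B) : f = ∑ j, algebraMap B R (f (b j)) • dual b j := by
  apply ext
  intro s
  rw [expand b f s, sum_apply]
  refine Finset.sum_congr rfl fun i _ => ?_
  rw [smul_apply, ← Algebra.smul_def, map_smul', smul_eq_mul, smul_eq_mul, mul_comm]

theorem hom_expand (φ : Coind B R B →ₗ[R] Coind B R W) :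
    φ = ∑ i, b i • Phi (φ (dual b i) 1) := by
  ext f
  apply ext
  intro s
  rw [LinearMap.sum_apply, sum_apply]
  have h1 : φ f s = (φ (s • f)) 1 := by
    rw [map_smul, smul_apply, mul_one]
  rw [h1]
  conv_lhs => rw [expand' b (s • f)]
  rw [_root_.map_sum, sum_apply]
  refine Finset.sum_congr rfl fun i _ => ?_
  rw [map_smul, smul_apply, ← Algebra.smul_def, map_smul', LinearMap.smul_apply, smul_apply,
    smul_apply, Phi_apply, mul_comm]

/-- the inverse of the evaluation map -/
noncomputable def Theta : Coind B R W →+ (Coind B R B ⊗[R] (Coind B R B →ₗ[R] Coind B R W)) where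
  toFun g := ∑ i, dual b i ⊗ₜ Phi (g (b i))
  map_zero' := by
    refine Finset.sum_eq_zero fun i _ => ?_
    rw [zero_apply, Phi_zero, tmul_zero]
  map_add' g h := by
    rw [← Finset.sum_add_distrib]
    refine Finset.sum_congr rfl fun i _ => ?_
    rw [add_apply, Phi_add, tmul_add]

theorem Theta_apply (g : Coind B R W) : Theta b g = ∑ i, dual b i ⊗ₜ Phi (g (b i)) := rfl

/-- the evaluation map `M ⊗ Hom(M, Ω) → Ω` -/
def ev (R M Ω : Type) [CommRing R] [AddCommGroup M] [Module R M] [AddCommGroup Ω] [Module R Ω] :
    (M ⊗[R] (M →ₗ[R] Ω)) →ₗ[R] Ω := TensorProduct.lift LinearMap.applyₗ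

theorem ev_tmul {R M Ω : Type} [CommRing R] [AddCommGroup M] [Module R M] [AddCommGroup Ω]
    [Module R Ω] (m : M) (φ : M →ₗ[R] Ω) : ev R M Ω (m ⊗ₜ φ) = φ m := rfl

theorem ev_Theta (g : Coind B R W) : ev R _ _ (Theta b g) = g := by
  rw [Theta_apply, _root_.map_sum]
  apply ext
  intro s
  rw [sum_apply, expand b g s]
  refine Finset.sum_congr rfl fun i _ => ?_
  rw [ev_tmul, Phi_apply]

theorem Theta_ev (t : Coind B R B ⊗[R] (Coind B R B →ₗ[R] Coind B R W)) :
    Theta b (ev R _ _ t) = t := by
  induction t using TensorProduct.induction_on with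
  | zero => rw [_root_.map_zero, _root_.map_zero]
  | add x y hx hy => rw [_root_.map_add, _root_.map_add, hx, hy]
  | tmul f φ =>
    have key : ∀ (r : R) (w : W), Theta b (ev R _ _ (f ⊗ₜ (r • Phi w))) = f ⊗ₜ (r • Phi w) := by
      intro r w
      rw [Theta_apply, ev_tmul]
      have h1 : (f ⊗ₜ[R] (r • Phi w : Coind B R B →ₗ[R] Coind B R W)) =
          (r • f) ⊗ₜ Phi w := by rw [tmul_smul, smul_tmul']
      rw [h1]
      conv_rhs => rw [expand' b (r • f)]
      rw [TensorProduct.sum_tmul]
      refine Finset.sum_congr rfl fun i _ => ?_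
      rw [LinearMap.smul_apply, smul_apply, Phi_apply, Phi_smul, tmul_smul, smul_tmul', smul_apply]
    rw [hom_expand b φ, TensorProduct.tmul_sum, _root_.map_sum, _root_.map_sum]
    exact Finset.sum_congr rfl fun i _ => key _ _

end Basis

/-- For a finite free `B`-algebra `R`, `M = Hom_B(R, B)` and `Ω = Hom_B(R, W)`:
`M ⊗_R Hom_R(M, Ω) ≃ Ω`. -/
theorem ev_equiv [Module.Free B R] [Module.Finite B R] :
    Nonempty ((Coind B R B ⊗[R] (Coind B R B →ₗ[R] Coind B R W)) ≃ₗ[R] Coind B R W) := by
  classical
  let b := Module.Free.chooseBasis B R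
  refine ⟨LinearEquiv.ofBijective (ev R _ _) ⟨?_, ?_⟩⟩
  · exact Function.LeftInverse.injective (g := Theta b) (Theta_ev b)
  · exact Function.RightInverse.surjective (g := Theta b) (ev_Theta b)

theorem finite [Module.Free B R] [Module.Finite B R] [hW : Module.Finite B W] :
    Module.Finite R (Coind B R W) := by
  classical
  let b := Module.Free.chooseBasis B R
  obtain ⟨S, hS⟩ := hW.fg_top
  refine ⟨⟨Finset.univ.biUnion fun i => S.image fun w => (Phi w (dual b i) : Coind B R W), ?_⟩⟩
  rw [eq_top_iff]
  intro g _
  have hg : g = ∑ i, Phi (g (b i)) (dual b i) := by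
    apply ext
    intro s
    rw [sum_apply, expand b g s]
    exact Finset.sum_congr rfl fun i _ => (Phi_apply _ _ _).symm
  rw [hg]
  refine Submodule.sum_mem _ fun i _ => ?_
  have key : ∀ w ∈ Submodule.span B (S : Set W), (Phi w (dual b i) : Coind B R W) ∈
      Submodule.span R (↑(Finset.univ.biUnion fun i =>
        S.image fun w => (Phi w (dual b i) : Coind B R W)) : Set (Coind B R W)) := by
    intro w hw
    induction hw using Submodule.span_induction with
    | mem w hw =>
      apply Submodule.subset_span
      simp only [Finset.coe_biUnion, Finset.coe_image, Set.mem_iUnion]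
      exact ⟨i, Finset.mem_univ _, w, hw, rfl⟩
    | zero => rw [Phi_zero, LinearMap.zero_apply]; exact Submodule.zero_mem _
    | add x y _ _ hx hy => rw [Phi_add, LinearMap.add_apply]; exact Submodule.add_mem _ hx hy
    | smul c x _ hx =>
      rw [Phi_smul, LinearMap.smul_apply]; exact Submodule.smul_mem _ _ hx
  apply key
  rw [hS]
  trivial

end Coind

end Pool.Agent.Q41.CT
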