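import Pool.Agent.Q41.CT.Coind

/-!
# The example `R = A ⊗ B` with `A = B = k[x, y] / (x, y) ^ 2`
-/

namespace Pool.Agent.Q41.CT

open TensorProduct

/-- A canonical module of an Artinian local ring: a finitely generated injective module whose
socle (the elements killed by the maximal ideal) is one-dimensional over the residue field. -/
structure IsCanonical (R W : Type) [CommRing R] [IsLocalRing R] [AddCommGroup W] [Module R W] :
    Prop where
  finite : Module.Finite R W
  injective : Module.Injective R W
  socle : ∃ e : W, e ≠ 0 ∧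
    ∀ x : W, (∀ r ∈ IsLocalRing.maximalIdeal R, r • x = 0) ↔ ∃ r : R, x = r • e

namespace Ex

variable (k : Type) [Field k]

/-- `B = k[x, y] / (x, y) ^ 2` -/
abbrev B : Type := TrivSqZeroExt k (k × k)

/-- `R = B[u, v] / (u, v) ^ 2` -/
abbrev R : Type := TrivSqZeroExt (B k) (B k × B k)

instance : Module.Free (B k) (R k) := inferInstanceAs (Module.Free (B k) (B k × (B k × B k)))

instance : Module.Finite (B k) (R k) := inferInstanceAs (Module.Finite (B k) (B k × (B k × B k)))

instance : Module.Finite k (B k) := inferInstanceAs (Module.Finite k (k × (k × k)))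

instance : IsArtinianRing (B k) := IsArtinianRing.of_finite k (B k)

instance : IsScalarTower (B k) (R k) (R k) := IsScalarTower.right

instance : IsArtinianRing (R k) := IsArtinianRing.of_finite (B k) (R k)

theorem isUnit_B {b : B k} : IsUnit b ↔ b.fst ≠ 0 := by
  rw [TrivSqZeroExt.isUnit_iff_isUnit_fst, isUnit_iff_ne_zero]

theorem isUnit_R {r : R k} : IsUnit r ↔ r.fst.fst ≠ 0 := by
  rw [TrivSqZeroExt.isUnit_iff_isUnit_fst, isUnit_B]

instance : IsLocalRing (R k) := by
  apply IsLocalRing.of_nonunits_add
  intro a b ha hb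
  rw [mem_nonunits_iff, isUnit_R, not_not] at *
  rw [TrivSqZeroExt.fst_add, TrivSqZeroExt.fst_add, ha, hb, add_zero]

theorem mem_max {r : R k} : r ∈ IsLocalRing.maximalIdeal (R k) ↔ r.fst.fst = 0 := by
  rw [IsLocalRing.mem_maximalIdeal, mem_nonunits_iff, isUnit_R, not_not]

/-- the dual of `B` -/
abbrev W : Type := Coind k (B k) k

/-- the canonical module of `R` -/
abbrev Om : Type := Coind (B k) (R k) (W k)

/-- the module `M = Hom_B(R, B)` -/
abbrev M : Type := Coind (B k) (R k) (B k)

/-- projection `B → k` -/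
def pi0 : W k := (show B k →ₗ[k] k from (TrivSqZeroExt.fstHom k k (k × k)).toLinearMap)

theorem pi0_apply (b : B k) : pi0 k b = b.fst := rfl

/-- the generator of the socle of the canonical module -/
def e : Om k := (show R k →ₗ[B k] W k from
  (LinearMap.toSpanSingleton (B k) (W k) (pi0 k)).comp
    (TrivSqZeroExt.fstHom (B k) (B k) (B k × B k)).toLinearMap)

theorem e_apply (r : R k) (t : B k) : (e k r) t = r.fst.fst * t.fst := rfl

/-- the variables of `B` -/
def x1 : B k := TrivSqZeroExt.inr (1, 0)
/-- the variables of `B` -/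
def x2 : B k := TrivSqZeroExt.inr (0, 1)
/-- the variables of `R` -/
def u1 : R k := TrivSqZeroExt.inr (1, 0)
/-- the variables of `R` -/
def u2 : R k := TrivSqZeroExt.inr (0, 1)

theorem R_decomp (r : R k) :
    r = r.fst • (1 : R k) + (r.snd.1 • u1 k + r.snd.2 • u2 k) := by
  apply TrivSqZeroExt.ext
  · simp [u1, u2]
  · simp [u1, u2]

theorem B_decomp (b : B k) :
    b = b.fst • (1 : B k) + (b.snd.1 • x1 k + b.snd.2 • x2 k) := by
  apply TrivSqZeroExt.ext
  · simp [x1, x2]
  · simp [x1, x2]

theorem u1_mem : u1 k ∈ IsLocalRing.maximalIdeal (R k) := by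
  rw [mem_max]; simp [u1]

theorem u2_mem : u2 k ∈ IsLocalRing.maximalIdeal (R k) := by
  rw [mem_max]; simp [u2]

/-- an element of the socle of a coinduced module is determined by its value at `1` -/
theorem socle_apply {V : Type} [AddCommGroup V] [Module (B k) V] (x : Coind (B k) (R k) V)
    (hx : ∀ r ∈ IsLocalRing.maximalIdeal (R k), r • x = 0) (s : R k) : x s = s.fst • x 1 := by
  have h1 : x (u1 k) = 0 := by
    have := congrArg (fun g : Coind (B k) (R k) V => g 1) (hx _ (u1_mem k))
    simpa [Coind.smul_apply, Coind.zero_apply] using this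
  have h2 : x (u2 k) = 0 := by
    have := congrArg (fun g : Coind (B k) (R k) V => g 1) (hx _ (u2_mem k))
    simpa [Coind.smul_apply, Coind.zero_apply] using this
  conv_lhs => rw [R_decomp k s]
  rw [Coind.map_add', Coind.map_add', Coind.map_smul', Coind.map_smul', Coind.map_smul', h1, h2,
    smul_zero, smul_zero, add_zero, add_zero]

theorem socle_one {V : Type} [AddCommGroup V] [Module (B k) V] (x : Coind (B k) (R k) V)
    (hx : ∀ r ∈ IsLocalRing.maximalIdeal (R k), r • x = 0) (b : B k) (hb : b.fst = 0) :
    b • x 1 = 0 := by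
  have h := congrArg (fun g : Coind (B k) (R k) V => g 1) (hx (b • 1) (by
    rw [mem_max]; simp [hb]))
  simp only [Coind.smul_apply, Coind.zero_apply, mul_one] at h
  rwa [Coind.map_smul'] at h

theorem canonical : IsCanonical (R k) (Om k) where
  finite := by
    have : Module.Finite (B k) (W k) := Coind.finite
    exact Coind.finite
  injective := Coind.injective (Coind.injective (Module.injective_of_isSemisimpleRing k k))
  socle := by
    refine ⟨e k, ?_, ?_⟩
    · intro h
      have h1 := congrArg (fun g : Om k => (g 1) 1) h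
      simp only [e_apply, Coind.zero_apply] at h1
      simp at h1
    · intro x
      constructor
      · intro hx
        refine ⟨algebraMap (B k) (R k) (algebraMap k (B k) ((x 1) 1)), ?_⟩
        apply Coind.ext
        intro s
        apply Coind.ext
        intro t
        rw [Coind.smul_apply, e_apply, socle_apply k x hx, Coind.smul_apply]
        have h1 : (x 1) (x1 k) = 0 := by
          have := congrArg (fun g : W k => g 1) (socle_one k x hx (x1 k) (by simp [x1]))
          simpa [Coind.smul_apply, Coind.zero_apply] using this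
        have h2 : (x 1) (x2 k) = 0 := by
          have := congrArg (fun g : W k => g 1) (socle_one k x hx (x2 k) (by simp [x2]))
          simpa [Coind.smul_apply, Coind.zero_apply] using this
        rw [B_decomp k (s.fst * t), Coind.map_add', Coind.map_add', Coind.map_smul',
          Coind.map_smul', Coind.map_smul', h1, h2]
        simp [TrivSqZeroExt.algebraMap_eq_inl]
        ring
      · rintro ⟨r, rfl⟩ r' hr'
        rw [mem_max] at hr'
        apply Coind.ext
        intro s
        apply Coind.ext
        intro t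
        rw [Coind.smul_apply, Coind.smul_apply, e_apply]
        simp [hr', Coind.zero_apply]

theorem finite_M : Module.Finite (R k) (M k) := Coind.finite

/-- coordinate functions -/
def g1 : M k := (show R k →ₗ[B k] B k from
  (LinearMap.fst (B k) (B k) (B k)).comp (TrivSqZeroExt.sndHom (B k) (B k × B k)))

/-- coordinate functions -/
def g2 : M k := (show R k →ₗ[B k] B k from
  (LinearMap.snd (B k) (B k) (B k)).comp (TrivSqZeroExt.sndHom (B k) (B k × B k)))

theorem g1_apply (r : R k) : g1 k r = r.snd.1 := rfl
theorem g2_apply (r : R k) : g2 k r = r.snd.2 := rfl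

theorem not_iso_ring : IsEmpty (M k ≃ₗ[R k] R k) := by
  refine ⟨fun φ => ?_⟩
  have h : ∀ g : M k, g = (φ g) • φ.symm 1 := by
    intro g
    rw [← map_smul, smul_eq_mul, mul_one, LinearEquiv.symm_apply_apply]
  set f := φ.symm 1
  have ev1 : ∀ r : R k, (r • f) (u1 k) = r.fst * f (u1 k) := by
    intro r
    rw [Coind.smul_apply]
    have : r * u1 k = r.fst • u1 k := by
      apply TrivSqZeroExt.ext
      · simp [u1]
      · simp [u1]
    rw [this, Coind.map_smul', smul_eq_mul]
  have ev2 : ∀ r : R k, (r • f) (u2 k) = r.fst * f (u2 k) := by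
    intro r
    rw [Coind.smul_apply]
    have : r * u2 k = r.fst • u2 k := by
      apply TrivSqZeroExt.ext
      · simp [u2]
      · simp [u2]
    rw [this, Coind.map_smul', smul_eq_mul]
  have a1 : (φ (g1 k)).fst * f (u1 k) = 1 := by
    rw [← ev1, ← h, g1_apply]; simp [u1]
  have a2 : (φ (g1 k)).fst * f (u2 k) = 0 := by
    rw [← ev2, ← h, g1_apply]; simp [u2]
  have a3 : (φ (g2 k)).fst * f (u2 k) = 1 := by
    rw [← ev2, ← h, g2_apply]; simp [u2]
  have a4 : f (u2 k) = 0 := by
    calc f (u2 k) = ((φ (g1 k)).fst * f (u1 k)) * f (u2 k) := by rw [a1, one_mul]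
      _ = f (u1 k) * ((φ (g1 k)).fst * f (u2 k)) := by ring
      _ = 0 := by rw [a2, mul_zero]
  rw [a4, mul_zero] at a3
  exact zero_ne_one a3

/-- an element of the socle of `M` -/
def hM (c : B k) : M k := (show R k →ₗ[B k] B k from
  (LinearMap.toSpanSingleton (B k) (B k) c).comp
    (TrivSqZeroExt.fstHom (B k) (B k) (B k × B k)).toLinearMap)

theorem hM_apply (c : B k) (r : R k) : hM k c r = r.fst * c := rfl

theorem hM_socle (c : B k) (hc : c.fst = 0) (r : R k)
    (hr : r ∈ IsLocalRing.maximalIdeal (R k)) : r • hM k c = 0 := by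
  rw [mem_max] at hr
  apply Coind.ext
  intro s
  rw [Coind.smul_apply, hM_apply, Coind.zero_apply]
  apply TrivSqZeroExt.ext
  · simp [hc]
  · simp [hc, hr]

theorem not_iso_can : IsEmpty (M k ≃ₗ[R k] Om k) := by
  refine ⟨fun φ => ?_⟩
  obtain ⟨-, -, e, he, hs⟩ := canonical k
  set m0 := φ.symm e with hm0
  have hm : ∀ r ∈ IsLocalRing.maximalIdeal (R k), r • m0 = 0 := by
    intro r hr
    rw [hm0, ← map_smul, (hs e).mpr ⟨1, (one_smul _ _).symm⟩ r hr, map_zero]
  have key : ∀ c : B k, c.fst = 0 → ∃ b : B k, c = b * m0 1 := by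
    intro c hc
    obtain ⟨r, hr⟩ := (hs (φ (hM k c))).mp (by
      intro r hr
      rw [← map_smul, hM_socle k c hc r hr, map_zero])
    have h1 : hM k c = r • m0 := by
      rw [hm0, ← map_smul, ← hr, LinearEquiv.symm_apply_apply]
    have h2 := congrArg (fun g : M k => g 1) h1
    simp only [hM_apply, Coind.smul_apply, mul_one, TrivSqZeroExt.fst_one, one_mul] at h2
    rw [socle_apply k m0 hm r, smul_eq_mul] at h2
    exact ⟨_, h2⟩
  have h0 : (m0 1).fst = 0 := by
    have := socle_one k m0 hm (x1 k) (by simp [x1])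
    have h2 := congrArg (fun b : B k => b.snd.1) this
    simpa [x1] using h2
  obtain ⟨b1, hb1⟩ := key (x1 k) (by simp [x1])
  obtain ⟨b2, hb2⟩ := key (x2 k) (by simp [x2])
  have c1 := congrArg (fun b : B k => b.snd.1) hb1
  have c2 := congrArg (fun b : B k => b.snd.2) hb1
  have c3 := congrArg (fun b : B k => b.snd.2) hb2
  simp [x1, x2, h0] at c1 c2 c3
  rcases c2 with c2 | c2
  · rw [c2, zero_mul] at c1; exact one_ne_zero c1
  · rw [c2, mul_zero] at c3; exact one_ne_zero c3

end Ex

end Pool.Agent.Q41.CT
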